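import Mathlib

/-!
# Every matrix of size three over the field with two elements commutes with a non-identity
# invertible matrix
-/

set_option autoImplicit false

namespace Pool.Agent.L7h63.Onn

open Matrix

/-- Nine bits. -/
structure B9 where
  (a b c d e f g h i : Bool)
deriving DecidableEq

namespace B9

/-- The product. -/
def mul (x y : B9) : B9 :=
  ⟨xor (xor (x.a && y.a) (x.b && y.d)) (x.c && y.g),
   xor (xor (x.a && y.b) (x.b && y.e)) (x.c && y.h),
   xor (xor (x.a && y.c) (x.b && y.f)) (x.c && y.i),
   xor (xor (x.d && y.a) (x.e && y.d)) (x.f && y.g),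
   xor (xor (x.d && y.b) (x.e && y.e)) (x.f && y.h),
   xor (xor (x.d && y.c) (x.e && y.f)) (x.f && y.i),
   xor (xor (x.g && y.a) (x.h && y.d)) (x.i && y.g),
   xor (xor (x.g && y.b) (x.h && y.e)) (x.i && y.h),
   xor (xor (x.g && y.c) (x.h && y.f)) (x.i && y.i)⟩

/-- The sum. -/
def add (x y : B9) : B9 :=
  ⟨xor x.a y.a, xor x.b y.b, xor x.c y.c, xor x.d y.d, xor x.e y.e, xor x.f y.f, xor x.g y.g,
    xor x.h y.h, xor x.i y.i⟩

/-- The identity. -/
def one : B9 := ⟨true, false, false, false, true, false, false, false, true⟩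

/-- The determinant. -/
def det (x : B9) : Bool :=
  xor (xor (x.a && (xor (x.e && x.i) (x.f && x.h))) (x.b && (xor (x.d && x.i) (x.f && x.g))))
    (x.c && (xor (x.d && x.h) (x.e && x.g)))

/-- The test. -/
def good (x y : B9) : Bool :=
  y.det && (decide (y ≠ one)) && decide (mul y x = mul x y)

/-- The candidates. -/
def cands (x : B9) : List B9 :=
  [x, add one x, add one (add x (mul x x)),
    ⟨true, false, false, false, true, false, false, true, true⟩,
    ⟨true, false, false, false, true, false, true, false, true⟩,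
    ⟨true, false, false, false, true, false, true, true, true⟩,
    ⟨true, false, false, false, true, true, false, false, true⟩,
    ⟨true, false, false, true, true, false, false, false, true⟩,
    ⟨true, false, false, true, true, true, false, false, true⟩,
    ⟨true, false, false, false, false, true, false, true, false⟩,
    ⟨true, false, false, true, true, false, true, false, true⟩,
    ⟨true, false, false, true, false, true, true, true, false⟩]

/-- Bits as elements of `ℤ/2`. -/
def bz (t : Bool) : ZMod 2 := if t then 1 else 0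

theorem bz_xor (s t : Bool) : bz (xor s t) = bz s + bz t := by
  cases s <;> cases t <;> decide

theorem bz_and (s t : Bool) : bz (s && t) = bz s * bz t := by
  cases s <;> cases t <;> decide

theorem bz_injective : Function.Injective bz := by
  intro s t h
  cases s <;> cases t <;> simp_all [bz]

/-- Nine bits as a matrix. -/
def toM (x : B9) : Matrix (Fin 3) (Fin 3) (ZMod 2) :=
  !![bz x.a, bz x.b, bz x.c; bz x.d, bz x.e, bz x.f; bz x.g, bz x.h, bz x.i]

theorem toM_mul (x y : B9) : toM (mul x y) = toM x * toM y := by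
  ext i j
  fin_cases i <;> fin_cases j <;>
    simp [toM, mul, Matrix.mul_apply, Fin.sum_univ_three, bz_xor, bz_and, add_assoc]

theorem toM_one : toM one = 1 := by
  ext i j
  fin_cases i <;> fin_cases j <;> simp [toM, one, bz]

theorem toM_injective : Function.Injective toM := by
  intro x y h
  have h' : ∀ i j, toM x i j = toM y i j := fun i j => by rw [h]
  cases x; cases y
  simp only [B9.mk.injEq]
  refine ⟨bz_injective (h' 0 0), bz_injective (h' 0 1), bz_injective (h' 0 2),
    bz_injective (h' 1 0), bz_injective (h' 1 1), bz_injective (h' 1 2),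
    bz_injective (h' 2 0), bz_injective (h' 2 1), bz_injective (h' 2 2)⟩

theorem toM_det (x : B9) : (toM x).det = bz x.det := by
  rw [Matrix.det_fin_three]
  simp only [toM, det, bz_xor, bz_and]
  simp only [Matrix.of_apply, Matrix.cons_val', Matrix.cons_val_zero, Matrix.cons_val_one,
    Matrix.cons_val, CharTwo.sub_eq_add]
  ring

theorem bz_surjective (z : ZMod 2) : ∃ t, bz t = z := by
  fin_cases z
  · exact ⟨false, rfl⟩
  · exact ⟨true, rfl⟩

theorem toM_surjective (A : Matrix (Fin 3) (Fin 3) (ZMod 2)) : ∃ x, toM x = A := by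
  choose f hf using bz_surjective
  refine ⟨⟨f (A 0 0), f (A 0 1), f (A 0 2), f (A 1 0), f (A 1 1), f (A 1 2), f (A 2 0), f (A 2 1),
    f (A 2 2)⟩, ?_⟩
  ext i j
  fin_cases i <;> fin_cases j <;> simp [toM, hf]

theorem check : ∀ a b c d e f g h i : Bool,
    (cands ⟨a, b, c, d, e, f, g, h, i⟩).any (good ⟨a, b, c, d, e, f, g, h, i⟩) = true := by
  decide

end B9

theorem exists_commuting (A : Matrix (Fin 3) (Fin 3) (ZMod 2)) :
    ∃ H : Matrix (Fin 3) (Fin 3) (ZMod 2), IsUnit H ∧ H ≠ 1 ∧ H * A = A * H := by
  obtain ⟨x, rfl⟩ := B9.toM_surjective A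
  have h := B9.check x.a x.b x.c x.d x.e x.f x.g x.h x.i
  rw [List.any_eq_true] at h
  obtain ⟨y, -, hy⟩ := h
  simp only [B9.good, Bool.and_eq_true, decide_eq_true_eq] at hy
  obtain ⟨⟨h1, h2⟩, h3⟩ := hy
  refine ⟨B9.toM y, ?_, ?_, ?_⟩
  · rw [Matrix.isUnit_iff_isUnit_det, B9.toM_det, h1]
    exact isUnit_one
  · rw [← B9.toM_one]
    exact fun e => h2 (B9.toM_injective e)
  · rw [← B9.toM_mul, ← B9.toM_mul, h3]

end Pool.Agent.L7h63.Onn
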