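import Pool.Agent.L7h63.Onn.Rep

/-!
# The irreducible representations of `GL₃ (o / p²)` given by diagonal matrices with distinct entries
-/

set_option autoImplicit false

namespace Pool.Agent.L7h63.Onn

open Matrix

section diag

variable (R : Type) [CommRing R]

/-- The diagonal matrices in `GL₃`. -/
noncomputable def diagHom : (Fin 3 → Rˣ) →* GL (Fin 3) R :=
  (Units.map ((Matrix.diagonalRingHom (Fin 3) R).toMonoidHom)).comp
    (MulEquiv.piUnits (M := fun _ : Fin 3 => R)).symm.toMonoidHom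

theorem diagHom_val (u : Fin 3 → Rˣ) : (diagHom R u).val = diagonal fun i => (u i : R) := rfl

theorem diagHom_injective : Function.Injective (diagHom R) := by
  intro u v h
  have := congrArg (fun g : GL (Fin 3) R => g.val) h
  simp only [diagHom_val] at this
  funext i
  exact Units.ext (congrFun (Matrix.diagonal_injective this) i)

theorem card_diag [Finite R] : Nat.card (diagHom R).range = Nat.card Rˣ ^ 3 := by
  have h := Nat.card_congr (MonoidHom.ofInjective (diagHom_injective R)).toEquiv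
  rw [← h, Nat.card_pi]
  simp

theorem diag_comm : ∀ a ∈ (diagHom R).range, ∀ b ∈ (diagHom R).range, a * b = b * a := by
  rintro _ ⟨u, rfl⟩ _ ⟨v, rfl⟩
  rw [← map_mul, ← map_mul, mul_comm]

end diag

theorem index_diag (F : Type) [Field F] [Finite F] :
    ((diagHom F).range.index : ℤ) =
      (Nat.card F : ℤ) ^ 3 * (Nat.card F + 1) * ((Nat.card F : ℤ) ^ 2 + Nat.card F + 1) := by
  classical
  have : Fintype F := Fintype.ofFinite F
  have h := (diagHom F).range.card_mul_index
  rw [card_diag, Matrix.card_GL_field, Nat.card_units, Nat.card_eq_fintype_card (α := F)] at h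
  rw [Nat.card_eq_fintype_card]
  have hq : 1 < Fintype.card F := Fintype.one_lt_card
  set q := Fintype.card F with hq'
  rw [Fin.prod_univ_three] at h
  simp only [Fin.coe_ofNat_eq_mod, Nat.zero_mod, pow_zero, Nat.one_mod, pow_one, Nat.reduceMod] at h
  obtain ⟨k, hk⟩ : ∃ k, q = k + 2 := ⟨q - 2, by omega⟩
  have h1 : 1 ≤ q ^ 3 := Nat.one_le_pow _ _ (by omega)
  have h2 : q ≤ q ^ 3 := Nat.le_self_pow (by norm_num) q
  have h3 : q ^ 2 ≤ q ^ 3 := Nat.pow_le_pow_right (by omega) (by norm_num)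
  have h4 : 1 ≤ q := by omega
  zify [h1, h2, h3, h4] at h
  have hne : ((q : ℤ) - 1) ^ 3 ≠ 0 := by
    apply pow_ne_zero
    have : (1 : ℤ) < q := by exact_mod_cast hq
    linarith
  apply mul_left_cancel₀ hne
  rw [h]
  ring

section main

set_option linter.unusedSectionVars false

variable {S : Type} [CommRing S] [Finite S] {F : Type} [Field F] [Finite F] (π : S →+* F)

/-- Reduction of matrices. -/
noncomputable abbrev red : GL (Fin 3) S →* GL (Fin 3) F := Matrix.GeneralLinearGroup.map π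

theorem mem_ker_iff (g : GL (Fin 3) S) :
    g ∈ (red π).ker ↔ ∀ i j, π (g.val i j - (1 : Matrix (Fin 3) (Fin 3) S) i j) = 0 := by
  rw [MonoidHom.mem_ker, Matrix.GeneralLinearGroup.ext_iff]
  refine forall_congr' fun i => forall_congr' fun j => ?_
  rw [Matrix.GeneralLinearGroup.map_apply, map_sub, sub_eq_zero]
  have : ((1 : GL (Fin 3) F) : Matrix (Fin 3) (Fin 3) F) i j =
      π ((1 : Matrix (Fin 3) (Fin 3) S) i j) := by
    rw [Matrix.GeneralLinearGroup.coe_one, Matrix.one_apply, Matrix.one_apply]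
    split_ifs <;> simp
  rw [this]

variable {π} (hsq : ∀ s t, π s = 0 → π t = 0 → s * t = 0)

include hsq in
theorem mul_eq_zero_of_entries {A B : Matrix (Fin 3) (Fin 3) S} (hA : ∀ i j, π (A i j) = 0)
    (hB : ∀ i j, π (B i j) = 0) : A * B = 0 := by
  ext i j
  rw [Matrix.mul_apply, Matrix.zero_apply]
  exact Finset.sum_eq_zero fun k _ => hsq _ _ (hA i k) (hB k j)

/-- `1 + A` for a matrix `A` with entries in the kernel of `π`. -/
noncomputable def onePlus (A : Matrix (Fin 3) (Fin 3) S) (hA : ∀ i j, π (A i j) = 0) :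
    GL (Fin 3) S where
  val := 1 + A
  inv := 1 - A
  val_inv := by
    have := mul_eq_zero_of_entries hsq hA hA
    rw [mul_sub, mul_one, add_mul, one_mul, this]; abel
  inv_val := by
    have := mul_eq_zero_of_entries hsq hA hA
    rw [mul_add, mul_one, sub_mul, one_mul, this]; abel

theorem onePlus_mem (A : Matrix (Fin 3) (Fin 3) S) (hA : ∀ i j, π (A i j) = 0) :
    onePlus hsq A hA ∈ (red π).ker := by
  rw [mem_ker_iff]
  intro i j
  simp [onePlus, hA]

theorem red_surjective (hπ : Function.Surjective π) (hloc : ∀ s, π s ≠ 0 → IsUnit s) :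
    Function.Surjective (red π) := by
  intro g
  choose f hf using hπ
  let A : Matrix (Fin 3) (Fin 3) S := fun i j => f (g.val i j)
  have hA : π.mapMatrix A = g.val := by
    ext i j
    exact hf _
  have hu : IsUnit A := by
    rw [Matrix.isUnit_iff_isUnit_det]
    apply hloc
    rw [RingHom.map_det, hA]
    have := (Matrix.isUnit_iff_isUnit_det _).1 g.isUnit
    exact this.ne_zero
  refine ⟨hu.unit, ?_⟩
  apply Units.ext
  exact hA

/-- The weight given by the matrix `B`. -/
noncomputable def wt (Ψ : AddChar S ℂ) (B : Matrix (Fin 3) (Fin 3) S) (g : GL (Fin 3) S) : ℂ :=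
  Ψ (trace (B * (g.val - 1)))

theorem wt_conj (Ψ : AddChar S ℂ) (B : Matrix (Fin 3) (Fin 3) S) (g k : GL (Fin 3) S) :
    wt Ψ B (g * k * g⁻¹) = Ψ (trace (g⁻¹.val * B * g.val * (k.val - 1))) := by
  unfold wt
  congr 1
  have h1 : (g * k * g⁻¹).val - 1 = g.val * (k.val - 1) * g⁻¹.val := by
    rw [mul_sub, sub_mul, mul_one]
    simp
  rw [h1, show B * (g.val * (k.val - 1) * g⁻¹.val) = (B * g.val * (k.val - 1)) * g⁻¹.val by
    simp only [Matrix.mul_assoc], Matrix.trace_mul_comm]
  simp only [Matrix.mul_assoc]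

include hsq in
theorem wt_mul (Ψ : AddChar S ℂ) (B : Matrix (Fin 3) (Fin 3) S) (a : GL (Fin 3) S)
    (ha : a ∈ (red π).ker) (b : GL (Fin 3) S) (hb : b ∈ (red π).ker) :
    wt Ψ B (a * b) = wt Ψ B a * wt Ψ B b := by
  unfold wt
  rw [← AddChar.map_add_eq_mul, ← Matrix.trace_add, ← Matrix.mul_add]
  congr 3
  have h := mul_eq_zero_of_entries hsq (A := a.val - 1) (B := b.val - 1)
    (fun i j => (mem_ker_iff π a).1 ha i j) (fun i j => (mem_ker_iff π b).1 hb i j)
  have h2 : (a * b).val - 1 = (a.val - 1) * (b.val - 1) + ((a.val - 1) + (b.val - 1)) := by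
    rw [Units.val_mul]
    noncomm_ring
  rw [h2, h, zero_add]

theorem wt_one (Ψ : AddChar S ℂ) (B : Matrix (Fin 3) (Fin 3) S) : wt Ψ B 1 = 1 := by
  simp [wt]

include hsq in
theorem stab (hloc : ∀ s, π s ≠ 0 → IsUnit s) (Ψ : AddChar S ℂ) (m0 : S) (hm0 : π m0 = 0)
    (hΨ : Ψ m0 ≠ 1) (b : Fin 3 → S) (hb : Function.Injective fun i => π (b i))
    (g : GL (Fin 3) S)
    (hg : ∀ k ∈ (red π).ker, wt Ψ (diagonal b) (g * k * g⁻¹) = wt Ψ (diagonal b) k) :
    g ∈ ((diagHom F).range).comap (red π) := by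
  have hC : ∀ i j, π ((g⁻¹.val * diagonal b * g.val) j i) = π (diagonal b j i) := by
    intro i j
    rw [← sub_eq_zero, ← map_sub]
    by_contra hne
    set c := (g⁻¹.val * diagonal b * g.val) j i - diagonal b j i with hc
    obtain ⟨u, hu⟩ := hloc c hne
    have hm : π ((u⁻¹ : Sˣ) * m0) = 0 := by rw [map_mul, hm0, mul_zero]
    have hA : ∀ i' j', π (Matrix.single i j ((u⁻¹ : Sˣ) * m0) i' j') = 0 := by
      intro i' j'
      rw [Matrix.single_apply]
      split_ifs
      · exact hm
      · exact map_zero _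
    have h := hg _ (onePlus_mem hsq _ hA)
    rw [wt_conj] at h
    unfold wt at h
    have h1 : (onePlus hsq _ hA).val - 1 = Matrix.single i j ((u⁻¹ : Sˣ) * m0 : S) := by
      simp [onePlus]
    rw [h1] at h
    have h2 : ∀ X : Matrix (Fin 3) (Fin 3) S, ∀ s : S,
        trace (X * Matrix.single i j s) = X j i * s := by
      intro X s
      rw [Matrix.trace_mul_single]
      simp
    rw [h2, h2] at h
    apply hΨ
    have h3 : m0 = (g⁻¹.val * diagonal b * g.val) j i * ((u⁻¹ : Sˣ) * m0) -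
        diagonal b j i * ((u⁻¹ : Sˣ) * m0) := by
      rw [← sub_mul, ← hc, ← hu, ← mul_assoc, Units.mul_inv, one_mul]
    rw [h3, AddChar.map_sub_eq_div, h, div_self]
    exact (AddChar.val_isUnit _ _).ne_zero
  have hcomm : ∀ i j, π (b i) * π (g.val i j) = π (g.val i j) * π (b j) := by
    intro i j
    have h1 : diagonal b * g.val = g.val * (g⁻¹.val * diagonal b * g.val) := by
      rw [Matrix.mul_assoc, ← Matrix.mul_assoc g.val, Units.mul_inv, Matrix.one_mul]
    have h2 := congrFun (congrFun (congrArg (π.mapMatrix) h1) i) j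
    rw [RingHom.map_mul, RingHom.map_mul] at h2
    have h3 : π.mapMatrix (g⁻¹.val * diagonal b * g.val) = π.mapMatrix (diagonal b) := by
      ext i' j'
      exact hC j' i'
    rw [h3] at h2
    have h4 : π.mapMatrix (diagonal b) = diagonal fun i => π (b i) := by
      rw [RingHom.mapMatrix_apply, Matrix.diagonal_map (map_zero π)]
    rw [h4, Matrix.diagonal_mul, Matrix.mul_diagonal] at h2
    exact h2
  have hoff : ∀ i j, i ≠ j → π (g.val i j) = 0 := by
    intro i j hij
    have h := hcomm i j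
    have h1 : (π (b i) - π (b j)) * π (g.val i j) = 0 := by rw [sub_mul, h]; ring
    rcases mul_eq_zero.1 h1 with h2 | h2
    · exact absurd (hb (sub_eq_zero.1 h2)) hij
    · exact h2
  rw [Subgroup.mem_comap]
  have hd : (red π g).val = diagonal fun i => π (g.val i i) := by
    ext i j
    by_cases hij : i = j
    · subst hij; rw [Matrix.diagonal_apply_eq]; rfl
    · rw [Matrix.diagonal_apply_ne _ hij]; exact hoff i j hij
  have hdet : ∏ i, π (g.val i i) ≠ 0 := by
    rw [← Matrix.det_diagonal, ← hd]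
    exact ((Matrix.isUnit_iff_isUnit_det _).1 (red π g).isUnit).ne_zero
  have hne : ∀ i, π (g.val i i) ≠ 0 := fun i => Finset.prod_ne_zero_iff.1 hdet i (Finset.mem_univ i)
  refine ⟨fun i => Units.mk0 _ (hne i), ?_⟩
  apply Units.ext
  rw [diagHom_val, hd]
  rfl

theorem decomp (hπ : Function.Surjective π) (hloc : ∀ s, π s ≠ 0 → IsUnit s)
    (t : GL (Fin 3) S) (ht : t ∈ ((diagHom F).range).comap (red π)) :
    ∃ k ∈ (red π).ker, ∃ d ∈ (diagHom S).range, t = k * d := by
  obtain ⟨u, hu⟩ := Subgroup.mem_comap.1 ht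
  choose f hf using hπ
  have hf' : ∀ i, IsUnit (f (u i)) := fun i => hloc _ (by rw [hf]; exact (u i).ne_zero)
  refine ⟨t * (diagHom S fun i => (hf' i).unit)⁻¹, ?_, diagHom S fun i => (hf' i).unit, ⟨_, rfl⟩,
    by group⟩
  rw [MonoidHom.mem_ker, map_mul, map_inv, ← hu, mul_inv_eq_one]
  apply Units.ext
  ext i j
  rw [Matrix.GeneralLinearGroup.map_apply, diagHom_val, diagHom_val]
  by_cases hij : i = j
  · subst hij
    rw [Matrix.diagonal_apply_eq, Matrix.diagonal_apply_eq]
    exact (hf _).symm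
  · rw [Matrix.diagonal_apply_ne _ hij, Matrix.diagonal_apply_ne _ hij, map_zero]

theorem wt_diag (Ψ : AddChar S ℂ) (b : Fin 3 → S) :
    ∀ d ∈ (diagHom S).range, ∀ k ∈ (red π).ker,
      wt Ψ (diagonal b) (d * k * d⁻¹) = wt Ψ (diagonal b) k := by
  rintro _ ⟨u, rfl⟩ k _
  rw [wt_conj]
  have h : (diagHom S u).val * diagonal b = diagonal b * (diagHom S u).val := by
    rw [diagHom_val, Matrix.diagonal_mul_diagonal, Matrix.diagonal_mul_diagonal]
    congr 1
    funext i
    exact mul_comm _ _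
  have h2 : (diagHom S u)⁻¹.val * diagonal b * (diagHom S u).val = diagonal b := by
    rw [Matrix.mul_assoc, ← h, ← Matrix.mul_assoc, Units.inv_mul, Matrix.one_mul]
  rw [h2]
  rfl

include hsq in
/-- For `q ≥ 3` there is a primitive irreducible representation of dimension
`q³ (q + 1) (q² + q + 1)`. -/
theorem exists_split (hπ : Function.Surjective π) (hloc : ∀ s, π s ≠ 0 → IsUnit s)
    (m0 : S) (hm0 : π m0 = 0) (hm0' : m0 ≠ 0) (hq : 3 ≤ Nat.card F) :
    ∃ (V : Type) (_ : AddCommGroup V) (_ : Module ℂ V) (ρ : Representation ℂ (GL (Fin 3) S) V),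
      FiniteDimensional ℂ V ∧ Nontrivial V ∧
      (∀ W : Submodule ℂ V, (∀ g v, v ∈ W → ρ g v ∈ W) → W = ⊥ ∨ W = ⊤) ∧
      (∃ g : GL (Fin 3) S,
        (∀ i j, π (g.val i j - (1 : Matrix (Fin 3) (Fin 3) S) i j) = 0) ∧ ρ g ≠ 1) ∧
      (Module.finrank ℂ V : ℤ) = (Nat.card F : ℤ) ^ 3 * (Nat.card F + 1) *
        ((Nat.card F : ℤ) ^ 2 + Nat.card F + 1) := by
  classical
  obtain ⟨Ψ, hΨ⟩ := AddChar.exists_apply_ne_zero.2 hm0'
  obtain ⟨c, hc0, hc1⟩ : ∃ c : F, c ≠ 0 ∧ c ≠ 1 := by
    by_contra hcon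
    push Not at hcon
    have : Fintype F := Fintype.ofFinite F
    have h : (Finset.univ : Finset F) ⊆ {0, 1} := by
      intro x _
      rw [Finset.mem_insert, Finset.mem_singleton]
      by_cases hx : x = 0
      · exact Or.inl hx
      · exact Or.inr (hcon x hx)
    have h1 := Finset.card_le_card h
    rw [Finset.card_univ, ← Nat.card_eq_fintype_card] at h1
    have := h1.trans Finset.card_le_two
    omega
  obtain ⟨c', hc'⟩ := hπ c
  let b : Fin 3 → S := ![1, 0, c']
  have hb : Function.Injective fun i => π (b i) := by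
    intro i j h
    fin_cases i <;> fin_cases j <;> simp_all [b]
  have : Finite (GL (Fin 3) S) := inferInstance
  obtain ⟨V, i1, i2, ρ, hfd, hnt, hirr, ⟨w, hw, hwχ⟩, hdim⟩ :=
    exists_irreducible_finrank (red π).ker (((diagHom F).range).comap (red π)) (diagHom S).range
      (wt Ψ (diagonal b)) (wt_mul hsq Ψ _) (wt_one Ψ _) (diag_comm S) (wt_diag Ψ b)
      (decomp hπ hloc) (stab hsq hloc Ψ m0 hm0 hΨ b hb)
  refine ⟨V, i1, i2, ρ, hfd, hnt, hirr, ?_, ?_⟩
  · have hA : ∀ i' j', π (Matrix.single (0 : Fin 3) (0 : Fin 3) m0 i' j') = 0 := by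
      intro i' j'
      rw [Matrix.single_apply]
      split_ifs
      · exact hm0
      · exact map_zero _
    refine ⟨onePlus hsq _ hA, (mem_ker_iff π _).1 (onePlus_mem hsq _ hA), ?_⟩
    intro h
    have h1 := hwχ _ (onePlus_mem hsq _ hA)
    rw [h, Module.End.one_apply] at h1
    have h2 : wt Ψ (diagonal b) (onePlus hsq _ hA) = Ψ m0 := by
      unfold wt
      congr 1
      have h1 : (onePlus hsq _ hA).val - 1 = Matrix.single (0 : Fin 3) (0 : Fin 3) m0 := by
        simp [onePlus]
      rw [h1, Matrix.trace_mul_single]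
      simp [b]
    rw [h2] at h1
    apply hΨ
    have h3 : (Ψ m0 - 1) • w = 0 := by rw [sub_smul, ← h1, one_smul, sub_self]
    exact sub_eq_zero.1 ((smul_eq_zero.1 h3).resolve_right hw)
  · rw [hdim, Subgroup.index_comap_of_surjective _ (red_surjective hπ hloc), index_diag]

end main

end Pool.Agent.L7h63.Onn
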