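import Pool.Agent.L7h63.Onn.Two

/-!
# The rings `ℤ_p / p²`
-/

set_option autoImplicit false

namespace Pool.Agent.L7h63.Onn

open IsLocalRing

variable (p : ℕ) [hp : Fact p.Prime]

/-- The ring `ℤ_p / p²`. -/
abbrev S2 : Type := ℤ_[p] ⧸ maximalIdeal ℤ_[p] ^ 2

theorem mem_max (a : ℤ_[p]) : a ∈ maximalIdeal ℤ_[p] ↔ PadicInt.toZMod a = 0 := by
  rw [← PadicInt.ker_toZMod, RingHom.mem_ker]

/-- The reduction. -/
noncomputable def pr : S2 p →+* ZMod p :=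
  Ideal.Quotient.lift _ PadicInt.toZMod fun a ha => by
    rw [← mem_max]
    exact Ideal.pow_le_self two_ne_zero ha

theorem pr_mk (a : ℤ_[p]) : pr p (Ideal.Quotient.mk _ a) = PadicInt.toZMod a := rfl

theorem pr_surjective : Function.Surjective (pr p) := by
  intro z
  obtain ⟨a, ha⟩ := ZMod.ringHom_surjective (PadicInt.toZMod (p := p)) z
  exact ⟨Ideal.Quotient.mk _ a, ha⟩

theorem pr_sq (s t : S2 p) (hs : pr p s = 0) (ht : pr p t = 0) : s * t = 0 := by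
  obtain ⟨a, rfl⟩ := Ideal.Quotient.mk_surjective s
  obtain ⟨b, rfl⟩ := Ideal.Quotient.mk_surjective t
  rw [pr_mk, ← mem_max] at hs ht
  rw [← map_mul, Ideal.Quotient.eq_zero_iff_mem, pow_two]
  exact Ideal.mul_mem_mul hs ht

theorem pr_loc (s : S2 p) (hs : pr p s ≠ 0) : IsUnit s := by
  obtain ⟨a, rfl⟩ := Ideal.Quotient.mk_surjective s
  rw [pr_mk, Ne, ← mem_max, mem_maximalIdeal, mem_nonunits_iff, not_not] at hs
  exact hs.map _

instance : Finite (ResidueField ℤ_[p]) := Finite.of_equiv _ PadicInt.residueField.symm.toEquiv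

theorem card_res : Nat.card (ResidueField ℤ_[p]) = p := by
  rw [Nat.card_congr PadicInt.residueField.toEquiv, Nat.card_zmod]

instance : Finite (S2 p) := by
  have : Finite (ℤ_[p] ⧸ maximalIdeal ℤ_[p]) := inferInstanceAs (Finite (ResidueField ℤ_[p]))
  exact Ideal.finite_quotient_pow (by
    rw [PadicInt.maximalIdeal_eq_span_p]; exact ⟨{(p : ℤ_[p])}, by simp⟩) 2

theorem p_mem : (p : ℤ_[p]) ∈ maximalIdeal ℤ_[p] := by
  rw [PadicInt.maximalIdeal_eq_span_p]; exact Ideal.mem_span_singleton_self _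

theorem pr_p : pr p (Ideal.Quotient.mk _ (p : ℤ_[p])) = 0 := by
  rw [pr_mk, ← mem_max]; exact p_mem p

theorem p_ne_zero : (Ideal.Quotient.mk (maximalIdeal ℤ_[p] ^ 2) (p : ℤ_[p])) ≠ 0 := by
  rw [Ne, Ideal.Quotient.eq_zero_iff_mem, PadicInt.maximalIdeal_eq_span_p,
    Ideal.span_singleton_pow, Ideal.mem_span_singleton]
  rintro ⟨c, hc⟩
  have hp0 : (p : ℤ_[p]) ≠ 0 := by exact_mod_cast hp.out.ne_zero
  have h1 : (p : ℤ_[p]) * ((p : ℤ_[p]) * c) = (p : ℤ_[p]) * 1 := by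
    rw [mul_one, ← mul_assoc, ← pow_two]; exact hc.symm
  have h2 := mul_left_cancel₀ hp0 h1
  have h3 : IsUnit (p : ℤ_[p]) := IsUnit.of_mul_eq_one _ h2
  have h4 := p_mem p
  rw [mem_maximalIdeal, mem_nonunits_iff] at h4
  exact h4 h3

theorem two_ker (s : S2 2) (hs : pr 2 s = 0) :
    s = 0 ∨ s = Ideal.Quotient.mk _ ((2 : ℕ) : ℤ_[2]) := by
  obtain ⟨a, rfl⟩ := Ideal.Quotient.mk_surjective s
  rw [pr_mk, ← mem_max, PadicInt.maximalIdeal_eq_span_p, Ideal.mem_span_singleton] at hs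
  obtain ⟨b, rfl⟩ := hs
  rcases zmod2_cases (PadicInt.toZMod b) with h | h
  · left
    rw [Ideal.Quotient.eq_zero_iff_mem, pow_two]
    exact Ideal.mul_mem_mul (p_mem 2) ((mem_max 2 b).2 h)
  · right
    rw [Ideal.Quotient.eq, pow_two]
    have h1 : b - 1 ∈ maximalIdeal ℤ_[2] := by
      rw [mem_max, map_sub, h, map_one, sub_self]
    have h2 := Ideal.mul_mem_mul (p_mem 2) h1
    rwa [mul_sub, mul_one] at h2

/-- The values of the polynomial `x³ (x + 1) (x² + x + 1)`. -/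
noncomputable def DD : Polynomial ℤ :=
  Polynomial.X ^ 3 * (Polynomial.X + 1) * (Polynomial.X ^ 2 + Polynomial.X + 1)

theorem eval_DD (n : ℕ) :
    DD.eval (n : ℤ) = (n : ℤ) ^ 3 * (n + 1) * ((n : ℤ) ^ 2 + n + 1) := by
  simp [DD]

theorem padic_dim (hp3 : 3 ≤ p) :
    ∃ (V : Type) (_ : AddCommGroup V) (_ : Module ℂ V)
      (ρ : Representation ℂ (Matrix.GeneralLinearGroup (Fin 3) (S2 p)) V),
      FiniteDimensional ℂ V ∧ Nontrivial V ∧
      (∀ W : Submodule ℂ V, (∀ g v, v ∈ W → ρ g v ∈ W) → W = ⊥ ∨ W = ⊤) ∧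
      (∃ g : Matrix.GeneralLinearGroup (Fin 3) (S2 p),
        (∀ i j, ∃ a ∈ maximalIdeal ℤ_[p] ^ (2 - 1),
          g.val i j - (1 : Matrix (Fin 3) (Fin 3) (S2 p)) i j
            = Ideal.Quotient.mk (maximalIdeal ℤ_[p] ^ 2) a) ∧ ρ g ≠ 1) ∧
      (Module.finrank ℂ V : ℤ) = DD.eval (Nat.card (ResidueField ℤ_[p]) : ℤ) := by
  obtain ⟨V, i1, i2, ρ, h1, h2, h3, ⟨g, hg, hg'⟩, h5⟩ :=
    exists_split (pr_sq p) (pr_surjective p) (pr_loc p) _ (pr_p p) (p_ne_zero p)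
      (by rwa [Nat.card_zmod])
  refine ⟨V, i1, i2, ρ, h1, h2, h3, ⟨g, fun i j => ?_, hg'⟩, ?_⟩
  · obtain ⟨a, ha⟩ := Ideal.Quotient.mk_surjective
      (g.val i j - (1 : Matrix (Fin 3) (Fin 3) (S2 p)) i j)
    refine ⟨a, ?_, ha.symm⟩
    have := hg i j
    rw [← ha, pr_mk, ← mem_max] at this
    simpa using this
  · rw [h5, card_res, eval_DD, Nat.card_zmod]

theorem padic_two {V : Type} [AddCommGroup V] [Module ℂ V]
    [FiniteDimensional ℂ V] [Nontrivial V]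
    (ρ : Representation ℂ (Matrix.GeneralLinearGroup (Fin 3) (S2 2)) V)
    (hirr : ∀ W : Submodule ℂ V, (∀ g v, v ∈ W → ρ g v ∈ W) → W = ⊥ ∨ W = ⊤) :
    Module.finrank ℂ V ≤ 84 :=
  two_bound (pr_sq 2) (pr_p 2) two_ker (pr_surjective 2) ρ hirr

end Pool.Agent.L7h63.Onn
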