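import Mathlib

/-!
# Irreducible representations and weights of a normal subgroup
-/

set_option autoImplicit false

namespace Pool.Agent.L7h63.Onn

variable {G : Type*} [Group G] {V : Type*} [AddCommGroup V] [Module ℂ V]

/-- The group of the elements which preserve the line of `w`. -/
def lineStab (ρ : Representation ℂ G V) (w : V) (hw : w ≠ 0) : Subgroup G where
  carrier := {g | ∃ c : ℂ, ρ g w = c • w}
  mul_mem' := by
    rintro a b ⟨c, hc⟩ ⟨d, hd⟩
    exact ⟨d * c, by rw [map_mul, Module.End.mul_apply, hd, map_smul, hc, smul_smul]⟩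
  one_mem' := ⟨1, by simp⟩
  inv_mem' := by
    rintro a ⟨c, hc⟩
    have h1 : ρ a⁻¹ (ρ a w) = w := by
      rw [← Module.End.mul_apply, ← map_mul, inv_mul_cancel, map_one, Module.End.one_apply]
    have hc0 : c ≠ 0 := by
      rintro rfl
      rw [hc, zero_smul, map_zero] at h1
      exact hw h1.symm
    refine ⟨c⁻¹, ?_⟩
    rw [hc, map_smul] at h1
    rw [← h1, smul_smul, inv_mul_cancel₀ hc0, one_smul, h1]

theorem mem_lineStab {ρ : Representation ℂ G V} {w : V} {hw : w ≠ 0} {g : G} :
    g ∈ lineStab ρ w hw ↔ ∃ c : ℂ, ρ g w = c • w := Iff.rfl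

theorem span_eq_top (ρ : Representation ℂ G V)
    (hirr : ∀ W : Submodule ℂ V, (∀ g v, v ∈ W → ρ g v ∈ W) → W = ⊥ ∨ W = ⊤)
    (w : V) (hw : w ≠ 0) (T : Subgroup G) (hT : T ≤ lineStab ρ w hw) :
    Submodule.span ℂ (Set.range fun q : G ⧸ T => ρ q.out w) = ⊤ := by
  have key : ∀ g : G, ρ g w ∈ Submodule.span ℂ (Set.range fun q : G ⧸ T => ρ q.out w) := by
    intro g
    obtain ⟨t, ht⟩ := QuotientGroup.mk_out_eq_mul T g
    obtain ⟨c, hc⟩ := hT (T.inv_mem t.2)
    have : g = (QuotientGroup.mk (s := T) g).out * (t : G)⁻¹ := by rw [ht]; group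
    rw [this, map_mul, Module.End.mul_apply, hc, map_smul]
    exact Submodule.smul_mem _ _ (Submodule.subset_span ⟨_, rfl⟩)
  have hst : ∀ g v, v ∈ Submodule.span ℂ (Set.range fun q : G ⧸ T => ρ q.out w) →
      ρ g v ∈ Submodule.span ℂ (Set.range fun q : G ⧸ T => ρ q.out w) := by
    intro g v hv
    induction hv using Submodule.span_induction with
    | mem x hx =>
      obtain ⟨q, rfl⟩ := hx
      simp only
      rw [← Module.End.mul_apply, ← map_mul]
      exact key _
    | zero => rw [map_zero]; exact Submodule.zero_mem _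
    | add x y _ _ hx hy => rw [map_add]; exact Submodule.add_mem _ hx hy
    | smul c x _ hx => rw [map_smul]; exact Submodule.smul_mem _ _ hx
  rcases hirr _ hst with h | h
  · exfalso
    have := key 1
    rw [h, map_one, Module.End.one_apply, Submodule.mem_bot] at this
    exact hw this
  · exact h

theorem finrank_le_index [Finite G] (ρ : Representation ℂ G V)
    (hirr : ∀ W : Submodule ℂ V, (∀ g v, v ∈ W → ρ g v ∈ W) → W = ⊥ ∨ W = ⊤)
    (w : V) (hw : w ≠ 0) (T : Subgroup G) (hT : T ≤ lineStab ρ w hw) :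
    Module.finrank ℂ V ≤ T.index := by
  classical
  have : Fintype (G ⧸ T) := Fintype.ofFinite _
  have h := finrank_range_le_card (R := ℂ) (fun q : G ⧸ T => ρ q.out w)
  rw [Set.finrank, span_eq_top ρ hirr w hw T hT, finrank_top] at h
  rwa [Subgroup.index, Nat.card_eq_fintype_card]

/-- Weight vectors with distinct weights are linearly independent. -/
theorem weights_independent {ι κ : Type*} (f : κ → V →ₗ[ℂ] V) (χ : ι → κ → ℂ)
    (hχ : Function.Injective χ) (v : ι → V) (hv : ∀ i, v i ≠ 0)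
    (h : ∀ i k, f k (v i) = χ i k • v i) : LinearIndependent ℂ v := by
  classical
  rw [linearIndependent_iff']
  intro s
  induction s using Finset.induction_on with
  | empty => intro c _ i hi; simp at hi
  | insert a s ha ih =>
    intro c hc
    have h1 : ∀ k, ∑ i ∈ s, (c i * (χ i k - χ a k)) • v i = 0 := by
      intro k
      have h2 := congrArg (f k) hc
      rw [map_sum, map_zero, Finset.sum_insert ha] at h2
      have h3 := congrArg (fun x => χ a k • x) hc
      simp only [smul_zero] at h3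
      rw [Finset.sum_insert ha, smul_add, Finset.smul_sum] at h3
      have : ∀ i ∈ s, (c i * (χ i k - χ a k)) • v i = f k (c i • v i) - χ a k • c i • v i := by
        intro i _
        rw [map_smul, h, smul_smul, smul_smul, ← sub_smul]
        congr 1; ring
      rw [Finset.sum_congr rfl this, Finset.sum_sub_distrib]
      rw [map_smul, h, smul_smul] at h2
      rw [smul_smul, mul_comm (χ a k)] at h3
      rw [show (∑ x ∈ s, f k (c x • v x)) = - ((c a * χ a k) • v a) from by
          rw [eq_neg_iff_add_eq_zero, add_comm]; exact h2,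
        show (∑ x ∈ s, χ a k • c x • v x) = - ((c a * χ a k) • v a) from by
          rw [eq_neg_iff_add_eq_zero, add_comm]; exact h3]
      abel
    have h4 : ∀ i ∈ s, c i = 0 := by
      intro i hi
      have hne : χ i ≠ χ a := fun e => ha (hχ e ▸ hi)
      obtain ⟨k, hk⟩ := Function.ne_iff.1 hne
      have := ih _ (h1 k) i hi
      rcases mul_eq_zero.1 this with h5 | h5
      · exact h5
      · exact absurd (sub_eq_zero.1 h5) hk
    intro i hi
    rcases Finset.mem_insert.1 hi with rfl | hi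
    · rw [Finset.sum_insert ha, Finset.sum_eq_zero (fun j hj => by rw [h4 j hj, zero_smul]),
        add_zero] at hc
      exact (smul_eq_zero.1 hc).resolve_right (hv i)
    · exact h4 i hi

/-- A commuting family of operators on a nonzero subspace which it preserves has a common
eigenvector there. -/
theorem exists_common_eigenvector [FiniteDimensional ℂ V] {κ : Type*} (f : κ → V →ₗ[ℂ] V)
    (hcomm : ∀ a b x, f a (f b x) = f b (f a x)) (W : Submodule ℂ V) (hW : W ≠ ⊥)
    (hst : ∀ k, ∀ x ∈ W, f k x ∈ W) :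
    ∃ w ∈ W, w ≠ 0 ∧ ∀ k, ∃ c : ℂ, f k w = c • w := by
  classical
  induction hn : Module.finrank ℂ W using Nat.strong_induction_on generalizing W with
  | _ n ih =>
    by_cases hall : ∀ k, ∃ c : ℂ, ∀ x ∈ W, f k x = c • x
    · obtain ⟨w, hw, hw0⟩ := Submodule.exists_mem_ne_zero_of_ne_bot hW
      exact ⟨w, hw, hw0, fun k => by
        obtain ⟨c, hc⟩ := hall k
        exact ⟨c, hc w hw⟩⟩
    · push Not at hall
      obtain ⟨k, hk⟩ := hall
      have : Nontrivial W := Submodule.nontrivial_iff_ne_bot.2 hW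
      obtain ⟨μ, hμ⟩ := Module.End.exists_eigenvalue ((f k).restrict (hst k))
      obtain ⟨x, hx, hx0⟩ := hμ.exists_hasEigenvector
      have hx' := Module.End.mem_eigenspace_iff.1 hx
      let W' : Submodule ℂ V := W ⊓ LinearMap.ker (f k - μ • LinearMap.id)
      have hW'0 : W' ≠ ⊥ := by
        rw [Submodule.ne_bot_iff]
        refine ⟨x, ⟨x.2, ?_⟩, fun h => hx0 (Subtype.ext h)⟩
        rw [SetLike.mem_coe, LinearMap.mem_ker]
        have := congrArg Subtype.val hx'
        simp only [LinearMap.coe_restrict_apply, Submodule.coe_smul] at this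
        simp [this]
      have hlt : W' < W := by
        refine lt_of_le_of_ne inf_le_left fun e => ?_
        obtain ⟨y, hy, hy'⟩ := hk μ
        apply hy'
        have : y ∈ W' := e ▸ hy
        have := this.2
        rw [SetLike.mem_coe, LinearMap.mem_ker] at this
        simpa [sub_eq_zero] using this
      have hst' : ∀ j, ∀ y ∈ W', f j y ∈ W' := by
        intro j y hy
        refine ⟨hst j y hy.1, ?_⟩
        have := hy.2
        rw [SetLike.mem_coe, LinearMap.mem_ker] at this ⊢
        have h1 : f k y = μ • y := by simpa [sub_eq_zero] using this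
        simp [hcomm k j, h1]
      obtain ⟨w, hw, h1, h2⟩ := ih _ (hn ▸ Submodule.finrank_lt_finrank_of_lt hlt) W' hW'0 hst' rfl
      exact ⟨w, hw.1, h1, h2⟩

/-- The dimension of an irreducible representation which contains a vector on whose line the
stabiliser `T` of a weight of the subgroup `K` acts. -/
theorem finrank_eq_index [Finite G] (ρ : Representation ℂ G V)
    (hirr : ∀ W : Submodule ℂ V, (∀ g v, v ∈ W → ρ g v ∈ W) → W = ⊥ ∨ W = ⊤)
    (w : V) (hw : w ≠ 0) (K T : Subgroup G) [K.Normal] (hT : T ≤ lineStab ρ w hw)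
    (χ : G → ℂ) (hχ : ∀ k ∈ K, ρ k w = χ k • w)
    (hstab : ∀ g : G, (∀ k ∈ K, χ (g * k * g⁻¹) = χ k) → g ∈ T) :
    Module.finrank ℂ V = T.index := by
  classical
  have : Fintype (G ⧸ T) := Fintype.ofFinite _
  have hgw : ∀ g, ρ g w ≠ 0 := by
    intro g h
    apply hw
    have : ρ g⁻¹ (ρ g w) = w := by
      rw [← Module.End.mul_apply, ← map_mul, inv_mul_cancel, map_one, Module.End.one_apply]
    rw [← this, h, map_zero]
  have hwt : ∀ (q : G ⧸ T) (k : K), ρ (k : G) (ρ q.out w) = χ (q.out⁻¹ * k * q.out) • ρ q.out w := by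
    intro q k
    have hk : q.out⁻¹ * (k : G) * q.out ∈ K := by
      have := ‹K.Normal›.conj_mem k k.2 q.out⁻¹
      simpa using this
    rw [← map_smul, ← hχ _ hk, ← Module.End.mul_apply, ← Module.End.mul_apply, ← map_mul,
      ← map_mul]
    congr 2
    group
  have hinj : Function.Injective (fun (q : G ⧸ T) (k : K) => χ (q.out⁻¹ * (k : G) * q.out)) := by
    intro q q' h
    rw [← QuotientGroup.out_eq' q, ← QuotientGroup.out_eq' q', QuotientGroup.eq]
    apply hstab
    intro k hk
    have hk' : q'.out * k * q'.out⁻¹ ∈ K := ‹K.Normal›.conj_mem k hk q'.out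
    have := congrFun h ⟨_, hk'⟩
    simp only at this
    rw [show q.out⁻¹ * q'.out * k * (q.out⁻¹ * q'.out)⁻¹ = q.out⁻¹ * (q'.out * k * q'.out⁻¹) * q.out
      by group, this]
    congr 1
    group
  have hli := weights_independent (fun k : K => ρ (k : G))
    (fun (q : G ⧸ T) (k : K) => χ (q.out⁻¹ * (k : G) * q.out)) hinj (fun q => ρ q.out w)
    (fun q => hgw _) (fun q k => hwt q k)
  have hb := Module.Basis.mk hli (by rw [span_eq_top ρ hirr w hw T hT])
  rw [Module.finrank_eq_card_basis hb, Subgroup.index, Nat.card_eq_fintype_card]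

section exist

variable {G : Type} [Group G] [Finite G]

/-- A weight of a subgroup `K` occurs in an irreducible representation. -/
theorem exists_irreducible (K : Subgroup G) (χ : G → ℂ)
    (hmul : ∀ a ∈ K, ∀ b ∈ K, χ (a * b) = χ a * χ b) (h1 : χ 1 = 1) :
    ∃ (V : Type) (_ : AddCommGroup V) (_ : Module ℂ V) (ρ : Representation ℂ G V),
      FiniteDimensional ℂ V ∧ Nontrivial V ∧
      (∀ W : Submodule ℂ V, (∀ g v, v ∈ W → ρ g v ∈ W) → W = ⊥ ∨ W = ⊤) ∧
      ∃ w : V, w ≠ 0 ∧ ∀ k ∈ K, ρ k w = χ k • w := by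
  classical
  have : Fintype G := Fintype.ofFinite _
  let A := MonoidAlgebra ℂ G
  have hinv : ∀ k ∈ K, χ k * χ k⁻¹ = 1 := fun k hk => by
    rw [← hmul k hk _ (K.inv_mem hk), mul_inv_cancel, h1]
  let v0 : A := ∑ k : K, χ (k : G)⁻¹ • MonoidAlgebra.of ℂ G (k : G)
  have hk0 : ∀ k ∈ K, MonoidAlgebra.of ℂ G k * v0 = χ k • v0 := by
    intro k hk
    simp only [v0, Finset.mul_sum, Finset.smul_sum]
    rw [← Equiv.sum_comp (Equiv.mulLeft (⟨k, hk⟩ : K))
      (fun j : K => χ k • (χ (j : G)⁻¹ • MonoidAlgebra.of ℂ G (j : G)))]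
    apply Finset.sum_congr rfl
    intro j _
    simp only [Equiv.coe_mulLeft, Subgroup.coe_mul, mul_inv_rev]
    rw [map_mul, smul_smul, hmul _ (K.inv_mem j.2) _ (K.inv_mem hk), mul_comm (χ _) (χ k⁻¹),
      ← mul_assoc, hinv k hk, one_mul, mul_smul_comm]
  have hv0 : v0 ≠ 0 := by
    intro h
    have h2 : v0.coeff 1 = 0 := by rw [h]; rfl
    simp only [v0] at h2
    rw [MonoidAlgebra.coeff_sum, Finsupp.finsetSum_apply, Finset.sum_eq_single (1 : K)] at h2
    · rw [MonoidAlgebra.coeff_smul_apply, MonoidAlgebra.of_apply, MonoidAlgebra.coeff_single] at h2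
      simp [h1] at h2
    · intro j _ hj
      rw [MonoidAlgebra.coeff_smul_apply, MonoidAlgebra.of_apply, MonoidAlgebra.coeff_single,
        Finsupp.single_apply, if_neg, smul_zero]
      intro e
      exact hj (Subtype.ext e)
    · simp
  let I : Submodule A A := LinearMap.ker (LinearMap.toSpanSingleton A A v0)
  have hI : I ≠ ⊤ := by
    intro h
    have : (1 : A) ∈ I := h ▸ Submodule.mem_top
    rw [LinearMap.mem_ker, LinearMap.toSpanSingleton_apply, one_smul] at this
    exact hv0 this
  obtain ⟨J, hJ, hIJ⟩ := Ideal.exists_le_maximal I hI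
  have hsimple : IsSimpleModule A (A ⧸ (J : Submodule A A)) := by
    rw [isSimpleModule_iff_isCoatom]
    exact hJ.out
  let ρ : Representation ℂ G (A ⧸ (J : Submodule A A)) :=
    MonoidHom.comp ((Algebra.lsmul ℂ ℂ (A ⧸ (J : Submodule A A))).toRingHom.toMonoidHom :
      A →* (A ⧸ (J : Submodule A A) →ₗ[ℂ] A ⧸ (J : Submodule A A))) (MonoidAlgebra.of ℂ G)
  have hρ : ∀ g x, ρ g x = MonoidAlgebra.of ℂ G g • x := fun g x => rfl
  refine ⟨A ⧸ (J : Submodule A A), inferInstance, inferInstance, ρ, ?_, hsimple.nontrivial, ?_,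
    Submodule.Quotient.mk (1 : A), ?_, ?_⟩
  · infer_instance
  · intro W hW
    have hA : ∀ a : A, ∀ x ∈ W, a • x ∈ W := by
      intro a x hx
      induction a using MonoidAlgebra.induction_on with
      | of g => exact hW g x hx
      | add a b ha hb => rw [add_smul]; exact W.add_mem ha hb
      | smul c a ha => rw [smul_assoc]; exact W.smul_mem c ha
    let W' : Submodule A (A ⧸ (J : Submodule A A)) :=
      { W with smul_mem' := fun a x hx => hA a x hx }
    have : W' = ⊥ ∨ W' = ⊤ := eq_bot_or_eq_top W'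
    rcases this with h | h
    · left
      ext x
      have : x ∈ W' ↔ x ∈ (⊥ : Submodule A (A ⧸ (J : Submodule A A))) := by rw [h]
      exact this
    · right
      ext x
      have : x ∈ W' ↔ x ∈ (⊤ : Submodule A (A ⧸ (J : Submodule A A))) := by rw [h]
      exact this
  · intro h
    rw [Submodule.Quotient.mk_eq_zero] at h
    exact hJ.ne_top ((Ideal.eq_top_iff_one _).2 h)
  · intro k hk
    rw [hρ, ← Submodule.Quotient.mk_smul, ← Submodule.Quotient.mk_smul, Submodule.Quotient.eq]
    apply hIJ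
    rw [LinearMap.mem_ker, LinearMap.toSpanSingleton_apply, smul_eq_mul, smul_eq_mul, mul_one,
      sub_mul, hk0 k hk, smul_mul_assoc, one_mul, sub_self]

/-- An irreducible representation of dimension the index of the stabiliser of a weight, if the
stabiliser is the product of `K` and a commutative group. -/
theorem exists_irreducible_finrank (K T D : Subgroup G) [K.Normal] (χ : G → ℂ)
    (hmul : ∀ a ∈ K, ∀ b ∈ K, χ (a * b) = χ a * χ b) (h1 : χ 1 = 1)
    (hcomm : ∀ a ∈ D, ∀ b ∈ D, a * b = b * a)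
    (hDχ : ∀ d ∈ D, ∀ k ∈ K, χ (d * k * d⁻¹) = χ k)
    (hT : ∀ t ∈ T, ∃ k ∈ K, ∃ d ∈ D, t = k * d)
    (hstab : ∀ g : G, (∀ k ∈ K, χ (g * k * g⁻¹) = χ k) → g ∈ T) :
    ∃ (V : Type) (_ : AddCommGroup V) (_ : Module ℂ V) (ρ : Representation ℂ G V),
      FiniteDimensional ℂ V ∧ Nontrivial V ∧
      (∀ W : Submodule ℂ V, (∀ g v, v ∈ W → ρ g v ∈ W) → W = ⊥ ∨ W = ⊤) ∧
      (∃ w : V, w ≠ 0 ∧ ∀ k ∈ K, ρ k w = χ k • w) ∧ Module.finrank ℂ V = T.index := by
  obtain ⟨V, _, _, ρ, hfd, hnt, hirr, w0, hw0, hw0χ⟩ := exists_irreducible K χ hmul h1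
  refine ⟨V, _, _, ρ, hfd, hnt, hirr, ⟨w0, hw0, hw0χ⟩, ?_⟩
  let W : Submodule ℂ V :=
    { carrier := {v | ∀ k ∈ K, ρ k v = χ k • v}
      add_mem' := fun {a b} ha hb k hk => by rw [map_add, ha k hk, hb k hk, smul_add]
      zero_mem' := fun k _ => by rw [map_zero, smul_zero]
      smul_mem' := fun c x hx k hk => by rw [map_smul, hx k hk, smul_comm] }
  have hW : W ≠ ⊥ := (Submodule.ne_bot_iff _).2 ⟨w0, hw0χ, hw0⟩
  obtain ⟨w, hwW, hw, hwD⟩ := exists_common_eigenvector (fun d : D => ρ (d : G))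
    (fun a b x => by
      rw [← Module.End.mul_apply, ← Module.End.mul_apply, ← map_mul, ← map_mul,
        hcomm _ a.2 _ b.2]) W hW
    (fun d x hx k hk => by
      have hk' : (d : G)⁻¹ * k * d ∈ K := by
        have := ‹K.Normal›.conj_mem k hk (d : G)⁻¹
        simpa using this
      have h2 := hDχ d d.2 _ hk'
      rw [show (d : G) * ((d : G)⁻¹ * k * d) * (d : G)⁻¹ = k by group] at h2
      rw [h2, ← map_smul, ← hx _ hk', ← Module.End.mul_apply, ← Module.End.mul_apply,
        ← map_mul, ← map_mul]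
      congr 2
      group)
  refine finrank_eq_index ρ hirr w hw K T ?_ χ hwW hstab
  intro t ht
  obtain ⟨k, hk, d, hd, rfl⟩ := hT t ht
  obtain ⟨c, hc⟩ := hwD ⟨d, hd⟩
  simp only at hc
  exact ⟨c * χ k, by rw [map_mul, Module.End.mul_apply, hc, map_smul, hwW k hk, smul_smul]⟩

end exist

end Pool.Agent.L7h63.Onn
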