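import Pool.Agent.L7h63.Onn.GL
import Pool.Agent.L7h63.Onn.Comb

/-!
# The irreducible representations of `GL₃ (o / p²)` for a residue field with two elements
have dimension at most 84
-/

set_option autoImplicit false
set_option linter.unusedSectionVars false

namespace Pool.Agent.L7h63.Onn

open Matrix

section main

variable {S : Type} [CommRing S] [Finite S] {π : S →+* ZMod 2}
  (hsq : ∀ s t, π s = 0 → π t = 0 → s * t = 0) {ϖ : S} (hϖ0 : π ϖ = 0)
  (hϖ : ∀ s, π s = 0 → s = 0 ∨ s = ϖ)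

/-- The additive map from the residue field onto the maximal ideal. -/
def sm (ϖ : S) (z : ZMod 2) : S := if z = 0 then 0 else ϖ

theorem zmod2_cases (z : ZMod 2) : z = 0 ∨ z = 1 := by
  fin_cases z
  · exact Or.inl rfl
  · exact Or.inr rfl

theorem sm_zero : sm ϖ 0 = 0 := by simp [sm]

theorem sm_one : sm ϖ 1 = ϖ := by simp [sm]

include hϖ0 in
theorem sm_mem (z : ZMod 2) : π (sm ϖ z) = 0 := by
  unfold sm
  split_ifs
  · exact map_zero _
  · exact hϖ0

include hsq hϖ0 in
theorem sm_add (y z : ZMod 2) : sm ϖ (y + z) = sm ϖ y + sm ϖ z := by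
  have h2 : ϖ + ϖ = 0 := by
    rw [← two_mul]
    apply hsq _ _ _ hϖ0
    rw [map_ofNat]
    rfl
  rcases zmod2_cases y with rfl | rfl <;> rcases zmod2_cases z with rfl | rfl
  · simp [sm]
  · simp [sm]
  · simp [sm]
  · rw [show (1 : ZMod 2) + 1 = 0 from rfl, sm_zero, sm_one, h2]

include hsq hϖ0 in
theorem mul_sm (t : S) (z : ZMod 2) : t * sm ϖ z = sm ϖ (π t * z) := by
  rcases zmod2_cases z with rfl | rfl
  · rw [mul_zero, sm_zero, mul_zero]
  rcases zmod2_cases (π t) with h | h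
  · rw [h, zero_mul, sm_zero, sm_one]
    exact hsq _ _ h hϖ0
  · rw [h, one_mul, sm_one]
    have : (t - 1) * ϖ = 0 := hsq _ _ (by rw [map_sub, h, map_one, sub_self]) hϖ0
    linear_combination this

include hsq hϖ0 in
theorem sm_sum {ι : Type} (s : Finset ι) (f : ι → ZMod 2) :
    sm ϖ (∑ i ∈ s, f i) = ∑ i ∈ s, sm ϖ (f i) := by
  classical
  induction s using Finset.induction_on with
  | empty => simp [sm]
  | insert a s ha ih => rw [Finset.sum_insert ha, Finset.sum_insert ha, sm_add hsq hϖ0, ih]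

include hϖ0 in
theorem smMat_mem (x : Matrix (Fin 3) (Fin 3) (ZMod 2)) : ∀ i j, π (x.map (sm ϖ) i j) = 0 :=
  fun i j => by rw [Matrix.map_apply]; exact sm_mem hϖ0 _

/-- The element `1 + ϖ x`. -/
noncomputable def kx (x : Matrix (Fin 3) (Fin 3) (ZMod 2)) : GL (Fin 3) S :=
  onePlus hsq (x.map (sm ϖ)) (smMat_mem hϖ0 x)

theorem kx_mem (x : Matrix (Fin 3) (Fin 3) (ZMod 2)) : kx hsq hϖ0 x ∈ (red π).ker :=
  onePlus_mem hsq _ _

theorem kx_add (x y : Matrix (Fin 3) (Fin 3) (ZMod 2)) :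
    kx hsq hϖ0 (x + y) = kx hsq hϖ0 x * kx hsq hϖ0 y := by
  apply Units.ext
  rw [Units.val_mul]
  simp only [kx, onePlus]
  have h := mul_eq_zero_of_entries hsq (smMat_mem hϖ0 x) (smMat_mem hϖ0 y)
  have h2 : (x + y).map (sm ϖ) = x.map (sm ϖ) + y.map (sm ϖ) := by
    ext i j
    simp only [Matrix.map_apply, Matrix.add_apply]
    exact sm_add hsq hϖ0 _ _
  rw [h2, add_mul, one_mul, mul_add, mul_one, h]
  abel

theorem kx_zero : kx hsq hϖ0 0 = 1 := by
  apply Units.ext
  simp only [kx, onePlus]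
  have : (0 : Matrix (Fin 3) (Fin 3) (ZMod 2)).map (sm ϖ) = 0 := by
    ext i j
    simp [sm_zero]
  rw [this, add_zero]
  rfl

include hϖ in
theorem exists_kx (k : GL (Fin 3) S) (hk : k ∈ (red π).ker) : ∃ x, k = kx hsq hϖ0 x := by
  classical
  rw [mem_ker_iff] at hk
  refine ⟨Matrix.of fun i j => if k.val i j - (1 : Matrix (Fin 3) (Fin 3) S) i j = 0 then 0 else 1,
    ?_⟩
  apply Units.ext
  ext i j
  simp only [kx, onePlus, Matrix.add_apply, Matrix.map_apply, Matrix.of_apply]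
  rcases hϖ _ (hk i j) with h | h
  · rw [if_pos h, sm_zero, add_zero]
    exact sub_eq_zero.1 h
  · by_cases h0 : k.val i j - (1 : Matrix (Fin 3) (Fin 3) S) i j = 0
    · rw [if_pos h0, sm_zero, add_zero]
      exact sub_eq_zero.1 h0
    · rw [if_neg h0, sm_one, ← h]
      ring

theorem kx_conj (h : GL (Fin 3) S) (x : Matrix (Fin 3) (Fin 3) (ZMod 2)) :
    h * kx hsq hϖ0 x * h⁻¹ =
      kx hsq hϖ0 ((red π h).val * x * (red π h)⁻¹.val) := by
  apply Units.ext
  rw [Units.val_mul, Units.val_mul]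
  simp only [kx, onePlus]
  rw [mul_add, mul_one, add_mul, Units.mul_inv]
  congr 1
  have hl : ∀ (t : Matrix (Fin 3) (Fin 3) S) (y : Matrix (Fin 3) (Fin 3) (ZMod 2)),
      t * y.map (sm ϖ) = (t.map π * y).map (sm ϖ) := by
    intro t y
    ext i j
    simp only [Matrix.mul_apply, Matrix.map_apply]
    rw [sm_sum hsq hϖ0]
    exact Finset.sum_congr rfl fun k _ => mul_sm hsq hϖ0 _ _
  have hr : ∀ (t : Matrix (Fin 3) (Fin 3) S) (y : Matrix (Fin 3) (Fin 3) (ZMod 2)),
      y.map (sm ϖ) * t = (y * t.map π).map (sm ϖ) := by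
    intro t y
    ext i j
    simp only [Matrix.mul_apply, Matrix.map_apply]
    rw [sm_sum hsq hϖ0]
    refine Finset.sum_congr rfl fun k _ => ?_
    rw [mul_comm, mul_sm hsq hϖ0, mul_comm]
  rw [hl, hr]
  rw [← map_inv]
  rfl

/-- The nontrivial character of `ℤ/2`. -/
noncomputable def sg (z : ZMod 2) : ℂ := if z = 0 then 1 else -1

theorem sg_add (y z : ZMod 2) : sg (y + z) = sg y * sg z := by
  rcases zmod2_cases y with rfl | rfl <;> rcases zmod2_cases z with rfl | rfl
  · simp [sg]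
  · simp [sg]
  · simp [sg]
  · rw [show (1 : ZMod 2) + 1 = 0 from rfl]
    simp [sg]

theorem sg_sum {ι : Type} (s : Finset ι) (f : ι → ZMod 2) :
    sg (∑ i ∈ s, f i) = ∏ i ∈ s, sg (f i) := by
  classical
  induction s using Finset.induction_on with
  | empty => simp [sg]
  | insert a s ha ih => rw [Finset.sum_insert ha, Finset.prod_insert ha, sg_add, ih]

theorem prod_of_add {θ : Matrix (Fin 3) (Fin 3) (ZMod 2) → ℂ} (h0 : θ 0 = 1)
    (hadd : ∀ x y, θ (x + y) = θ x * θ y) {ι : Type} (s : Finset ι)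
    (f : ι → Matrix (Fin 3) (Fin 3) (ZMod 2)) : θ (∑ i ∈ s, f i) = ∏ i ∈ s, θ (f i) := by
  classical
  induction s using Finset.induction_on with
  | empty => simpa using h0
  | insert a s ha ih => rw [Finset.sum_insert ha, Finset.prod_insert ha, hadd, ih]

/-- The characters of the additive group of the matrices. -/
theorem exists_trace {θ : Matrix (Fin 3) (Fin 3) (ZMod 2) → ℂ} (h0 : θ 0 = 1)
    (hadd : ∀ x y, θ (x + y) = θ x * θ y) :
    ∃ β : Matrix (Fin 3) (Fin 3) (ZMod 2), ∀ x, θ x = sg (trace (β * x)) := by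
  classical
  have hsq' : ∀ x, θ x = 1 ∨ θ x = -1 := by
    intro x
    have h1 : x + x = 0 := by
      ext i j
      exact CharTwo.add_self_eq_zero _
    have h2 := hadd x x
    rw [h1, h0] at h2
    exact mul_self_eq_one_iff.1 h2.symm
  refine ⟨Matrix.of fun j i => if θ (Matrix.single i j 1) = 1 then 0 else 1, fun x => ?_⟩
  conv_lhs => rw [Matrix.matrix_eq_sum_single x]
  rw [prod_of_add h0 hadd]
  have h3 : ∀ i j : Fin 3, θ (Matrix.single i j (x i j)) =
      sg ((if θ (Matrix.single i j (1 : ZMod 2)) = 1 then 0 else 1) * x i j) := by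
    intro i j
    rcases zmod2_cases (x i j) with h | h
    · rw [h, Matrix.single_zero, mul_zero, h0]; simp [sg]
    · rw [h, mul_one]
      rcases hsq' (Matrix.single i j 1) with h4 | h4
      · rw [if_pos h4, h4]; simp [sg]
      · have h5 : ¬ ((-1 : ℂ) = 1) := by norm_num
        rw [h4, if_neg h5]; simp [sg]
  have h6 : ∀ i : Fin 3, θ (∑ j, Matrix.single i j (x i j)) =
      ∏ j, sg ((if θ (Matrix.single i j (1 : ZMod 2)) = 1 then 0 else 1) * x i j) := by
    intro i
    rw [prod_of_add h0 hadd]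
    exact Finset.prod_congr rfl fun j _ => h3 i j
  rw [Finset.prod_congr rfl fun i _ => h6 i, Finset.prod_comm, Matrix.trace, sg_sum]
  refine Finset.prod_congr rfl fun j _ => ?_
  rw [Matrix.diag_apply, Matrix.mul_apply, sg_sum]
  rfl

theorem exists_stab {θ : Matrix (Fin 3) (Fin 3) (ZMod 2) → ℂ} (h0 : θ 0 = 1)
    (hadd : ∀ x y, θ (x + y) = θ x * θ y) :
    ∃ H : GL (Fin 3) (ZMod 2), H ≠ 1 ∧ ∀ x, θ (H.val * x * H⁻¹.val) = θ x := by
  obtain ⟨β, hβ⟩ := exists_trace h0 hadd
  obtain ⟨H, hH, hne, hcomm⟩ := exists_commuting β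
  refine ⟨hH.unit, fun e => hne ?_, fun x => ?_⟩
  · have := congrArg (fun u : GL (Fin 3) (ZMod 2) => u.val) e
    simpa using this
  · rw [hβ, hβ]
    congr 1
    have h1 : hH.unit.val = H := rfl
    rw [show β * (hH.unit.val * x * hH.unit⁻¹.val) = (β * hH.unit.val * x) * hH.unit⁻¹.val by
      simp only [Matrix.mul_assoc], Matrix.trace_mul_comm, h1, ← hcomm]
    rw [show hH.unit⁻¹.val * (H * β * x) = (hH.unit⁻¹.val * H) * (β * x) by
      simp only [Matrix.mul_assoc]]
    have h2 : hH.unit⁻¹.val * H = 1 := by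
      have := hH.unit.inv_mul
      rwa [h1] at this
    rw [h2, Matrix.one_mul]

include hsq hϖ0 hϖ in
/-- Every irreducible representation has dimension at most `84`. -/
theorem two_bound (hπ : Function.Surjective π) {V : Type} [AddCommGroup V] [Module ℂ V]
    [FiniteDimensional ℂ V] [Nontrivial V] (ρ : Representation ℂ (GL (Fin 3) S) V)
    (hirr : ∀ W : Submodule ℂ V, (∀ g v, v ∈ W → ρ g v ∈ W) → W = ⊥ ∨ W = ⊤) :
    Module.finrank ℂ V ≤ 84 := by
  classical
  have hloc : ∀ s, π s ≠ 0 → IsUnit s := by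
    intro s hs
    have h1 : π s = 1 := (zmod2_cases (π s)).resolve_left hs
    have h2 : (s - 1) * (s - 1) = 0 :=
      hsq _ _ (by rw [map_sub, h1, map_one, sub_self]) (by rw [map_sub, h1, map_one, sub_self])
    exact IsUnit.of_mul_eq_one (2 - s) (by linear_combination -h2)
  have hKcomm : ∀ a ∈ (red π).ker, ∀ b ∈ (red π).ker, a * b = b * a := by
    intro a ha b hb
    obtain ⟨x, rfl⟩ := exists_kx hsq hϖ0 hϖ a ha
    obtain ⟨y, rfl⟩ := exists_kx hsq hϖ0 hϖ b hb
    rw [← kx_add, ← kx_add, add_comm]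
  -- a weight vector of the kernel of the reduction
  obtain ⟨v0, -, hv0, hw0⟩ := exists_common_eigenvector (fun k : (red π).ker => ρ (k : GL (Fin 3) S))
    (fun a b x => by
      rw [← Module.End.mul_apply, ← Module.End.mul_apply, ← map_mul, ← map_mul,
        hKcomm _ a.2 _ b.2]) ⊤ (bot_ne_top.symm) (fun _ _ _ => Submodule.mem_top)
  choose χ hχ using hw0
  have hinj : ∀ c d : ℂ, c • v0 = d • v0 → c = d := fun c d h => by
    have : (c - d) • v0 = 0 := by rw [sub_smul, h, sub_self]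
    exact sub_eq_zero.1 ((smul_eq_zero.1 this).resolve_right hv0)
  have hχmul : ∀ a b, χ (a * b) = χ a * χ b := by
    intro a b
    apply hinj
    have h1 := hχ (a * b)
    have h2 : ρ ((a * b : (red π).ker) : GL (Fin 3) S) v0 = (χ a * χ b) • v0 := by
      rw [Subgroup.coe_mul, map_mul, Module.End.mul_apply]
      have ha : ρ (a : GL (Fin 3) S) v0 = χ a • v0 := hχ a
      have hb : ρ (b : GL (Fin 3) S) v0 = χ b • v0 := hχ b
      rw [hb, map_smul, ha, smul_smul, mul_comm]
    exact h1.symm.trans h2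
  have hχone : χ 1 = 1 := by
    apply hinj
    have h1 := hχ 1
    simp only [Subgroup.coe_one, map_one, Module.End.one_apply] at h1
    rw [← h1, one_smul]
  let θ : Matrix (Fin 3) (Fin 3) (ZMod 2) → ℂ := fun x => χ ⟨kx hsq hϖ0 x, kx_mem hsq hϖ0 x⟩
  have hθ0 : θ 0 = 1 := by
    have : (⟨kx hsq hϖ0 0, kx_mem hsq hϖ0 0⟩ : (red π).ker) = 1 := Subtype.ext (kx_zero hsq hϖ0)
    simp only [θ]
    rw [this, hχone]
  have hθadd : ∀ x y, θ (x + y) = θ x * θ y := by
    intro x y
    simp only [θ]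
    rw [← hχmul]
    congr 1
    exact Subtype.ext (kx_add hsq hϖ0 x y)
  obtain ⟨H, hH1, hH⟩ := exists_stab hθ0 hθadd
  obtain ⟨h, rfl⟩ := red_surjective hπ hloc H
  have hhK : h ∉ (red π).ker := fun e => hH1 e
  have hconj : ∀ (k : GL (Fin 3) S) (hk : k ∈ (red π).ker) (hk' : h * k * h⁻¹ ∈ (red π).ker),
      χ ⟨h * k * h⁻¹, hk'⟩ = χ ⟨k, hk⟩ := by
    intro k hk hk'
    obtain ⟨x, rfl⟩ := exists_kx hsq hϖ0 hϖ k hk
    have h1 := hH x
    simp only [θ] at h1
    rw [← h1]
    congr 1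
    exact Subtype.ext (kx_conj hsq hϖ0 h x)
  -- a weight vector which is an eigenvector of `h`
  let W : Submodule ℂ V :=
    { carrier := {v | ∀ k : (red π).ker, ρ (k : GL (Fin 3) S) v = χ k • v}
      add_mem' := fun {a b} ha hb k => by rw [map_add, ha k, hb k, smul_add]
      zero_mem' := fun k => by rw [map_zero, smul_zero]
      smul_mem' := fun c x hx k => by rw [map_smul, hx k, smul_comm] }
  have hW : W ≠ ⊥ := (Submodule.ne_bot_iff _).2 ⟨v0, hχ, hv0⟩
  obtain ⟨w, hwW, hw, hwh⟩ := exists_common_eigenvector (fun _ : Unit => ρ h)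
    (fun _ _ _ => rfl) W hW
    (fun _ x hx k => by
      have hk' : h⁻¹ * (k : GL (Fin 3) S) * h ∈ (red π).ker := by
        have := (inferInstance : (red π).ker.Normal).conj_mem k k.2 h⁻¹
        simpa using this
      have e : h * (h⁻¹ * (k : GL (Fin 3) S) * h) * h⁻¹ = k := by group
      have h2 := hconj (h⁻¹ * (k : GL (Fin 3) S) * h) hk' (by rw [e]; exact k.2)
      have h3 : χ k = χ ⟨h⁻¹ * (k : GL (Fin 3) S) * h, hk'⟩ := by
        rw [← h2]
        congr 1
        exact Subtype.ext e.symm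
      have h4 := hx ⟨h⁻¹ * (k : GL (Fin 3) S) * h, hk'⟩
      rw [h3, ← map_smul, ← h4, ← Module.End.mul_apply, ← Module.End.mul_apply,
        ← map_mul, ← map_mul]
      congr 2
      group)
  obtain ⟨c, hc⟩ := hwh ()
  have hKT : (red π).ker ≤ lineStab ρ w hw := fun k hk => ⟨χ ⟨k, hk⟩, hwW ⟨k, hk⟩⟩
  have hle := finrank_le_index ρ hirr w hw (lineStab ρ w hw) le_rfl
  have hidx : (red π).ker.index ≤ 168 := by
    rw [Subgroup.index_ker]
    refine (Nat.card_le_card_of_injective _ Subtype.val_injective).trans ?_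
    rw [Matrix.card_GL_field]
    simp [Fin.prod_univ_three, ZMod.card]
  have hmul := Subgroup.relIndex_mul_index hKT
  have hrel : 2 ≤ (red π).ker.relIndex (lineStab ρ w hw) := by
    have h0 : (red π).ker.relIndex (lineStab ρ w hw) ≠ 0 := Subgroup.FiniteIndex.index_ne_zero
    have h1 : (red π).ker.relIndex (lineStab ρ w hw) ≠ 1 := by
      intro e
      rw [Subgroup.relIndex_eq_one] at e
      exact hhK (e ⟨c, hc⟩)
    omega
  nlinarith

end main

end Pool.Agent.L7h63.Onn
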